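import Pool.Agent.Y296.FF.Four

/-!
# Integrals of symmetric functions and the ordered chamber
-/

set_option autoImplicit false

namespace Pool.Agent.Y296.FF

open MeasureTheory Set
open scoped ENNReal

/-- the ordered chamber -/
def cham (n : ℕ) : Set (Fin n → ℝ) := {x | StrictMono x}

lemma cham_meas (n : ℕ) : MeasurableSet (cham n) := by
  have h : cham n = ⋂ i : Fin n, ⋂ j : Fin n, {x : Fin n → ℝ | i < j → x i < x j} := by
    ext x
    simp only [cham, StrictMono, mem_iInter]
    rfl
  rw [h]
  refine MeasurableSet.iInter fun i => MeasurableSet.iInter fun j => ?_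
  by_cases hij : i < j
  · simp only [hij, forall_const]
    exact measurableSet_lt (measurable_pi_apply i) (measurable_pi_apply j)
  · simp [hij]

lemma perm_mp {n : ℕ} (σ : Equiv.Perm (Fin n)) :
    MeasurePreserving (fun x : Fin n → ℝ => x ∘ σ) volume volume := by
  have h := volume_measurePreserving_piCongrLeft (fun _ : Fin n => ℝ) σ.symm
  have e : (fun x : Fin n → ℝ => x ∘ σ) =
      (MeasurableEquiv.piCongrLeft (fun _ : Fin n => ℝ) σ.symm) := by
    funext x b
    have := MeasurableEquiv.piCongrLeft_apply_apply σ.symm (β := fun _ : Fin n => ℝ) x (σ b)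
    rw [Equiv.symm_apply_apply] at this
    exact this.symm
  rw [e]
  exact h

/-- exactly one ordering -/
lemma sum_cham {n : ℕ} {x : Fin n → ℝ} (hx : Function.Injective x) (c : ℝ≥0∞) :
    ∑ σ : Equiv.Perm (Fin n), (cham n).indicator (fun _ => c) (x ∘ σ) = c := by
  classical
  have h1 : StrictMono (x ∘ Tuple.sort x) :=
    (Tuple.monotone_sort x).strictMono_of_injective (hx.comp (Tuple.sort x).injective)
  rw [Finset.sum_eq_single (Tuple.sort x)]
  · exact indicator_of_mem h1 _
  · intro σ _ hσ
    apply indicator_of_notMem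
    intro hmem
    have h2 : StrictMono (x ∘ σ) := hmem
    apply hσ
    have h3 : x ∘ σ = x ∘ Tuple.sort x := by
      rw [← StrictMono.range_inj h2 h1, range_comp, range_comp]
      simp [Set.range_eq_univ.2 σ.surjective, Set.range_eq_univ.2 (Tuple.sort x).surjective]
    ext i
    exact congrArg Fin.val (hx (congrFun h3 i))
  · intro h; exact absurd (Finset.mem_univ _) h

/-- symmetric functions vanishing off the injective points -/
theorem lint_cham {n : ℕ} {f : (Fin n → ℝ) → ℝ≥0∞} (mf : Measurable f)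
    (hsym : ∀ (σ : Equiv.Perm (Fin n)) x, f (x ∘ σ) = f x)
    (hinj : ∀ x, ¬ Function.Injective x → f x = 0) :
    ∫⁻ x, f x = (n.factorial : ℝ≥0∞) * ∫⁻ x, (cham n).indicator f x := by
  have e1 : ∀ x, f x = ∑ σ : Equiv.Perm (Fin n), (cham n).indicator f (x ∘ σ) := by
    intro x
    by_cases hx : Function.Injective x
    · conv_lhs => rw [← sum_cham hx (f x)]
      refine Finset.sum_congr rfl fun σ _ => ?_
      by_cases hm : x ∘ σ ∈ cham n
      · rw [indicator_of_mem hm, indicator_of_mem hm, hsym]
      · rw [indicator_of_notMem hm, indicator_of_notMem hm]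
    · rw [hinj x hx]
      symm
      apply Finset.sum_eq_zero
      intro σ _
      apply indicator_of_notMem
      intro hm
      have h1 : StrictMono (x ∘ σ) := hm
      apply hx
      intro i j hij
      have := h1.injective (a₁ := σ.symm i) (a₂ := σ.symm j) (by simpa using hij)
      exact σ.symm.injective this
  have mi : Measurable ((cham n).indicator f) := mf.indicator (cham_meas n)
  calc ∫⁻ x, f x = ∫⁻ x, ∑ σ : Equiv.Perm (Fin n), (cham n).indicator f (x ∘ σ) :=
        lintegral_congr e1
    _ = ∑ σ : Equiv.Perm (Fin n), ∫⁻ x, (cham n).indicator f (x ∘ σ) := by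
        rw [lintegral_finsetSum]
        intro σ _
        exact mi.comp (perm_mp σ).measurable
    _ = ∑ σ : Equiv.Perm (Fin n), ∫⁻ x, (cham n).indicator f x := by
        refine Finset.sum_congr rfl fun σ _ => ?_
        exact (perm_mp σ).lintegral_comp mi
    _ = (n.factorial : ℝ≥0∞) * ∫⁻ x, (cham n).indicator f x := by
        rw [Finset.sum_const, Finset.card_univ, Fintype.card_perm, Fintype.card_fin, nsmul_eq_mul]

/-- The four functions theorem on the chamber, for symmetric functions. -/
theorem four_sym {n : ℕ} {f1 f2 f3 f4 : (Fin n → ℝ) → ℝ≥0∞} (m1 : Measurable f1)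
    (m2 : Measurable f2) (m3 : Measurable f3) (m4 : Measurable f4)
    (s1 : ∀ (σ : Equiv.Perm (Fin n)) x, f1 (x ∘ σ) = f1 x)
    (s2 : ∀ (σ : Equiv.Perm (Fin n)) x, f2 (x ∘ σ) = f2 x)
    (s3 : ∀ (σ : Equiv.Perm (Fin n)) x, f3 (x ∘ σ) = f3 x)
    (s4 : ∀ (σ : Equiv.Perm (Fin n)) x, f4 (x ∘ σ) = f4 x)
    (i1 : ∀ x, ¬ Function.Injective x → f1 x = 0) (i2 : ∀ x, ¬ Function.Injective x → f2 x = 0)
    (i3 : ∀ x, ¬ Function.Injective x → f3 x = 0) (i4 : ∀ x, ¬ Function.Injective x → f4 x = 0)
    (h : ∀ x y, StrictMono x → StrictMono y → f1 x * f2 y ≤ f3 (x ⊔ y) * f4 (x ⊓ y)) :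
    (∫⁻ x, f1 x) * (∫⁻ x, f2 x) ≤ (∫⁻ x, f3 x) * (∫⁻ x, f4 x) := by
  rw [lint_cham m1 s1 i1, lint_cham m2 s2 i2, lint_cham m3 s3 i3, lint_cham m4 s4 i4]
  have h1 := four (m1.indicator (cham_meas n)) (m2.indicator (cham_meas n))
    (m3.indicator (cham_meas n)) (m4.indicator (cham_meas n)) (fun x y => by
      by_cases hx : x ∈ cham n
      · by_cases hy : y ∈ cham n
        · have hx' : StrictMono x := hx
          have hy' : StrictMono y := hy
          have hs : x ⊔ y ∈ cham n := by
            intro i j hij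
            exact max_lt_max (hx' hij) (hy' hij)
          have hi : x ⊓ y ∈ cham n := by
            intro i j hij
            exact min_lt_min (hx' hij) (hy' hij)
          rw [indicator_of_mem hx, indicator_of_mem hy, indicator_of_mem hs, indicator_of_mem hi]
          exact h x y hx' hy'
        · rw [indicator_of_notMem hy, mul_zero]; exact zero_le
      · rw [indicator_of_notMem hx, zero_mul]; exact zero_le)
  calc _ = (n.factorial : ℝ≥0∞) * (n.factorial : ℝ≥0∞) *
        ((∫⁻ x, (cham n).indicator f1 x) * ∫⁻ x, (cham n).indicator f2 x) := by ring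
    _ ≤ (n.factorial : ℝ≥0∞) * (n.factorial : ℝ≥0∞) *
        ((∫⁻ x, (cham n).indicator f3 x) * ∫⁻ x, (cham n).indicator f4 x) :=
        mul_le_mul_right h1 _
    _ = _ := by ring

end Pool.Agent.Y296.FF
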