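import Pool.Agent.Y296.FF.Cham

/-!
# Association for orthogonal polynomial ensembles
-/

set_option autoImplicit false

namespace Pool.Agent.Y296.FF

open MeasureTheory Set
open scoped ENNReal

/-- the squared Vandermonde product -/
def V {n : ℕ} (x : Fin n → ℝ) : ℝ := ∏ i, ∏ j ∈ Finset.Ioi i, (x j - x i) ^ 2

lemma V_eq {n : ℕ} (x : Fin n → ℝ) : V x = (Matrix.vandermonde x).det ^ 2 := by
  rw [Matrix.det_vandermonde, V, ← Finset.prod_pow]
  refine Finset.prod_congr rfl fun i _ => ?_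
  rw [← Finset.prod_pow]

lemma V_nonneg {n : ℕ} (x : Fin n → ℝ) : 0 ≤ V x := by rw [V_eq]; positivity

lemma V_perm {n : ℕ} (σ : Equiv.Perm (Fin n)) (x : Fin n → ℝ) : V (x ∘ σ) = V x := by
  have h : Matrix.vandermonde (x ∘ σ) = (Matrix.vandermonde x).submatrix σ id := by
    ext i j; simp [Matrix.vandermonde_apply]
  rw [V_eq, V_eq, h, Matrix.det_permute, mul_pow]
  have : ((Equiv.Perm.sign σ : ℤ) : ℝ) ^ 2 = 1 := by
    rcases Int.units_eq_one_or (Equiv.Perm.sign σ) with h | h <;> simp [h]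
  rw [this, one_mul]

lemma V_inj {n : ℕ} {x : Fin n → ℝ} (hx : ¬ Function.Injective x) : V x = 0 := by
  rw [V_eq]
  have : (Matrix.vandermonde x).det = 0 := by
    rw [Matrix.det_vandermonde_eq_zero_iff]
    simp only [Function.Injective, not_forall] at hx
    obtain ⟨i, j, hij, hne⟩ := hx
    exact ⟨i, j, hij, hne⟩
  rw [this]; ring

lemma V_cont {n : ℕ} : Continuous (V (n := n)) := by
  unfold V; fun_prop

lemma pair_le {a b c d : ℝ} (h1 : b < a) (h2 : d < c) :
    (a - b) ^ 2 * (c - d) ^ 2 ≤ (a ⊔ c - b ⊔ d) ^ 2 * (a ⊓ c - b ⊓ d) ^ 2 := by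
  have key : 0 ≤ (a - b) * (c - d) ∧ (a - b) * (c - d) ≤ (a ⊔ c - b ⊔ d) * (a ⊓ c - b ⊓ d) := by
    refine ⟨mul_nonneg (by linarith) (by linarith), ?_⟩
    rcases le_total a c with h | h <;> rcases le_total b d with h' | h'
    · rw [sup_eq_right.2 h, inf_eq_left.2 h, sup_eq_right.2 h', inf_eq_left.2 h']; linarith
    · rw [sup_eq_right.2 h, inf_eq_left.2 h, sup_eq_left.2 h', inf_eq_right.2 h']
      nlinarith [mul_nonneg (sub_nonneg.2 h) (sub_nonneg.2 h')]
    · rw [sup_eq_left.2 h, inf_eq_right.2 h, sup_eq_right.2 h', inf_eq_left.2 h']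
      nlinarith [mul_nonneg (sub_nonneg.2 h) (sub_nonneg.2 h')]
    · rw [sup_eq_left.2 h, inf_eq_right.2 h, sup_eq_left.2 h', inf_eq_right.2 h']
  rw [← mul_pow, ← mul_pow]
  exact pow_le_pow_left₀ key.1 key.2 2

lemma V_super {n : ℕ} {x y : Fin n → ℝ} (hx : StrictMono x) (hy : StrictMono y) :
    V x * V y ≤ V (x ⊔ y) * V (x ⊓ y) := by
  unfold V
  rw [← Finset.prod_mul_distrib, ← Finset.prod_mul_distrib]
  refine Finset.prod_le_prod (fun i _ => ?_) fun i _ => ?_
  · positivity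
  rw [← Finset.prod_mul_distrib, ← Finset.prod_mul_distrib]
  refine Finset.prod_le_prod (fun j _ => ?_) fun j hj => ?_
  · positivity
  exact pair_le (hx (Finset.mem_Ioi.1 hj)) (hy (Finset.mem_Ioi.1 hj))

/-- the density of the ensemble with one-body weight `w` -/
noncomputable def dens {n : ℕ} (w : ℝ → ℝ≥0∞) (x : Fin n → ℝ) : ℝ≥0∞ :=
  (∏ j, w (x j)) * ENNReal.ofReal (V x)

lemma dens_meas {n : ℕ} {w : ℝ → ℝ≥0∞} (hw : Measurable w) : Measurable (dens (n := n) w) := by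
  unfold dens
  refine Measurable.mul ?_ (ENNReal.measurable_ofReal.comp V_cont.measurable)
  exact Finset.measurable_prod _ fun j _ => hw.comp (measurable_pi_apply j)

lemma dens_perm {n : ℕ} (w : ℝ → ℝ≥0∞) (σ : Equiv.Perm (Fin n)) (x : Fin n → ℝ) :
    dens w (x ∘ σ) = dens w x := by
  unfold dens
  rw [V_perm]
  congr 1
  exact Equiv.prod_comp σ fun j => w (x j)

lemma dens_inj {n : ℕ} (w : ℝ → ℝ≥0∞) {x : Fin n → ℝ} (hx : ¬ Function.Injective x) :
    dens w x = 0 := by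
  unfold dens
  rw [V_inj hx, ENNReal.ofReal_zero, mul_zero]

lemma dens_super {n : ℕ} (w : ℝ → ℝ≥0∞) {x y : Fin n → ℝ} (hx : StrictMono x)
    (hy : StrictMono y) : dens w x * dens w y ≤ dens w (x ⊔ y) * dens w (x ⊓ y) := by
  unfold dens
  have h1 : (∏ j, w (x j)) * (∏ j, w (y j)) = (∏ j, w ((x ⊔ y) j)) * ∏ j, w ((x ⊓ y) j) := by
    rw [← Finset.prod_mul_distrib, ← Finset.prod_mul_distrib]
    refine Finset.prod_congr rfl fun j _ => ?_
    simp only [Pi.sup_apply, Pi.inf_apply]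
    rcases le_total (x j) (y j) with h | h
    · rw [sup_eq_right.2 h, inf_eq_left.2 h, mul_comm]
    · rw [sup_eq_left.2 h, inf_eq_right.2 h]
  calc _ = ((∏ j, w (x j)) * (∏ j, w (y j))) * (ENNReal.ofReal (V x) * ENNReal.ofReal (V y)) := by
        ring
    _ ≤ ((∏ j, w ((x ⊔ y) j)) * ∏ j, w ((x ⊓ y) j)) *
        (ENNReal.ofReal (V (x ⊔ y)) * ENNReal.ofReal (V (x ⊓ y))) := by
        rw [h1]
        refine mul_le_mul_right ?_ _
        rw [← ENNReal.ofReal_mul (V_nonneg _), ← ENNReal.ofReal_mul (V_nonneg _)]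
        exact ENNReal.ofReal_le_ofReal (V_super hx hy)
    _ = _ := by ring

/-- **Association** (FKG inequality) for the ensemble: symmetric increasing and symmetric decreasing
functions are negatively correlated. -/
theorem fkg {n : ℕ} {w : ℝ → ℝ≥0∞} (hw : Measurable w) {A C : (Fin n → ℝ) → ℝ≥0∞}
    (mA : Measurable A) (mC : Measurable C)
    (sA : ∀ (σ : Equiv.Perm (Fin n)) x, A (x ∘ σ) = A x)
    (sC : ∀ (σ : Equiv.Perm (Fin n)) x, C (x ∘ σ) = C x)
    (hA : Monotone A) (hC : Antitone C) :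
    (∫⁻ x, dens w x * (A x * C x)) * (∫⁻ x, dens (n := n) w x) ≤
      (∫⁻ x, dens w x * A x) * ∫⁻ x, dens w x * C x := by
  have md := dens_meas (n := n) hw
  refine four_sym (md.mul (mA.mul mC)) md (md.mul mA) (md.mul mC)
    (fun σ x => by rw [dens_perm, sA, sC]) (fun σ x => by rw [dens_perm])
    (fun σ x => by rw [dens_perm, sA]) (fun σ x => by rw [dens_perm, sC])
    (fun x hx => by rw [dens_inj w hx, zero_mul]) (fun x hx => dens_inj w hx)
    (fun x hx => by rw [dens_inj w hx, zero_mul]) (fun x hx => by rw [dens_inj w hx, zero_mul])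
    fun x y hx hy => ?_
  calc dens w x * (A x * C x) * dens w y = (dens w x * dens w y) * (A x * C x) := by ring
    _ ≤ (dens w (x ⊔ y) * dens w (x ⊓ y)) * (A (x ⊔ y) * C (x ⊓ y)) :=
        mul_le_mul' (dens_super w hx hy) (mul_le_mul' (hA le_sup_left) (hC inf_le_left))
    _ = _ := by ring

end Pool.Agent.Y296.FF
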