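import Mathlib

/-!
# The four functions theorem for Lebesgue integrals on `ℝⁿ`
-/

set_option autoImplicit false

namespace Pool.Agent.Y296.FF

open MeasureTheory Set
open scoped ENNReal

lemma four_num {a b c d : ℝ≥0∞} (h1 : a ≤ c) (h2 : b ≤ c) (h3 : a * b ≤ c * d) :
    a + b ≤ c + d := by
  by_cases hc : c = ⊤
  · rw [hc, top_add]; exact le_top
  by_cases hd : d = ⊤
  · rw [hd, add_top]; exact le_top
  have ha : a ≠ ⊤ := ne_top_of_le_ne_top hc h1
  have hb : b ≠ ⊤ := ne_top_of_le_ne_top hc h2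
  lift a to NNReal using ha
  lift b to NNReal using hb
  lift c to NNReal using hc
  lift d to NNReal using hd
  norm_cast at h1 h2 h3 ⊢
  rcases eq_or_ne c 0 with h0 | h0
  · rw [h0] at h1 h2
    have e1 : a = 0 := le_antisymm h1 zero_le
    have e2 : b = 0 := le_antisymm h2 zero_le
    rw [e1, e2, add_zero]; exact zero_le
  · rw [← NNReal.coe_le_coe] at h1 h2 h3 ⊢
    push_cast at h1 h2 h3 ⊢
    have h4 : (0 : ℝ) < c := by
      have : (0 : ℝ) ≤ c := c.coe_nonneg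
      exact lt_of_le_of_ne this (fun h => h0 (by exact_mod_cast h.symm))
    have h5 := mul_nonneg (sub_nonneg.2 h1) (sub_nonneg.2 h2)
    have h6 : (c : ℝ) * (a + b) ≤ c * (c + d) := by nlinarith
    exact le_of_mul_le_mul_left h6 h4

lemma four_pt {f1 f2 f3 f4 : ℝ → ℝ≥0∞}
    (h : ∀ x y, f1 x * f2 y ≤ f3 (x ⊔ y) * f4 (x ⊓ y)) (x y : ℝ) :
    f1 x * f2 y + f1 y * f2 x ≤ f3 x * f4 y + f3 y * f4 x := by
  wlog hxy : x ≤ y generalizing x y
  · have := this y x (le_of_not_ge hxy)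
    rwa [add_comm (f1 y * f2 x), add_comm (f3 y * f4 x)] at this
  have h1 : f1 x * f2 y ≤ f3 y * f4 x := by
    have := h x y
    rwa [sup_eq_right.2 hxy, inf_eq_left.2 hxy] at this
  have h2 : f1 y * f2 x ≤ f3 y * f4 x := by
    have := h y x
    rwa [sup_eq_left.2 hxy, inf_eq_right.2 hxy] at this
  have h3 : f1 x * f2 x ≤ f3 x * f4 x := by simpa using h x x
  have h4 : f1 y * f2 y ≤ f3 y * f4 y := by simpa using h y y
  rw [add_comm (f3 x * f4 y)]
  refine four_num h1 h2 ?_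
  calc f1 x * f2 y * (f1 y * f2 x) = (f1 x * f2 x) * (f1 y * f2 y) := by ring
    _ ≤ (f3 x * f4 x) * (f3 y * f4 y) := mul_le_mul' h3 h4
    _ = f3 y * f4 x * (f3 x * f4 y) := by ring

/-- one variable -/
theorem four_one {f1 f2 f3 f4 : ℝ → ℝ≥0∞} (m1 : Measurable f1) (m2 : Measurable f2)
    (m3 : Measurable f3) (m4 : Measurable f4)
    (h : ∀ x y, f1 x * f2 y ≤ f3 (x ⊔ y) * f4 (x ⊓ y)) :
    (∫⁻ x, f1 x) * (∫⁻ x, f2 x) ≤ (∫⁻ x, f3 x) * (∫⁻ x, f4 x) := by
  have key : ∀ g k : ℝ → ℝ≥0∞, Measurable g → Measurable k →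
      2 * ((∫⁻ x, g x) * (∫⁻ x, k x)) = ∫⁻ x, ∫⁻ y, (g x * k y + g y * k x) := by
    intro g k mg mk
    have e1 : ∀ x, ∫⁻ y, (g x * k y + g y * k x) = g x * (∫⁻ y, k y) + (∫⁻ y, g y) * k x := by
      intro x
      rw [lintegral_add_left (mk.const_mul _), lintegral_const_mul _ mk, lintegral_mul_const _ mg]
    simp_rw [e1]
    rw [lintegral_add_left (mg.mul_const _), lintegral_mul_const _ mg, lintegral_const_mul _ mk]
    ring
  have h2 : 2 * ((∫⁻ x, f1 x) * (∫⁻ x, f2 x)) ≤ 2 * ((∫⁻ x, f3 x) * (∫⁻ x, f4 x)) := by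
    rw [key f1 f2 m1 m2, key f3 f4 m3 m4]
    exact lintegral_mono fun x => lintegral_mono fun y => four_pt h x y
  exact (ENNReal.mul_le_mul_iff_right (by norm_num) (by norm_num)).1 h2

lemma symm_eq {n : ℕ} (p : ℝ × (Fin n → ℝ)) :
    (MeasurableEquiv.piFinSuccAbove (fun _ : Fin (n + 1) => ℝ) 0).symm p = Fin.cons p.1 p.2 := by
  rw [MeasurableEquiv.symm_apply_eq]
  refine Prod.ext ?_ ?_
  · simp [MeasurableEquiv.piFinSuccAbove]
  · funext i
    simp [MeasurableEquiv.piFinSuccAbove]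

lemma lint_succ {n : ℕ} {f : (Fin (n + 1) → ℝ) → ℝ≥0∞} (mf : Measurable f) :
    ∫⁻ x, f x = ∫⁻ v : Fin n → ℝ, ∫⁻ a : ℝ, f (Fin.cons a v) := by
  have e := (volume_preserving_piFinSuccAbove (fun _ : Fin (n + 1) => ℝ) 0)
  rw [← e.symm.lintegral_comp mf]
  have hm : Measurable fun p : ℝ × (Fin n → ℝ) =>
      f ((MeasurableEquiv.piFinSuccAbove (fun _ : Fin (n + 1) => ℝ) 0).symm p) :=
    mf.comp (MeasurableEquiv.measurable _)
  have h1 := lintegral_prod_symm _ hm.aemeasurable (μ := volume) (ν := volume)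
  rw [show (volume : Measure (ℝ × (Fin n → ℝ))) = (volume : Measure ℝ).prod volume from rfl]
  rw [h1]
  simp_rw [symm_eq]

lemma meas_succ {n : ℕ} {f : (Fin (n + 1) → ℝ) → ℝ≥0∞} (mf : Measurable f) :
    Measurable fun p : ℝ × (Fin n → ℝ) => f (Fin.cons p.1 p.2) := by
  have e : (fun p : ℝ × (Fin n → ℝ) => f (Fin.cons p.1 p.2)) =
      f ∘ (MeasurableEquiv.piFinSuccAbove (fun _ : Fin (n + 1) => ℝ) 0).symm := by
    funext p
    exact congrArg f (symm_eq p).symm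
  rw [e]
  exact mf.comp (MeasurableEquiv.measurable
    (MeasurableEquiv.piFinSuccAbove (fun _ : Fin (n + 1) => ℝ) 0).symm)

/-- **Four functions theorem** on `ℝⁿ`. -/
theorem four : ∀ {n : ℕ} {f1 f2 f3 f4 : (Fin n → ℝ) → ℝ≥0∞}, Measurable f1 → Measurable f2 →
    Measurable f3 → Measurable f4 → (∀ x y, f1 x * f2 y ≤ f3 (x ⊔ y) * f4 (x ⊓ y)) →
    (∫⁻ x, f1 x) * (∫⁻ x, f2 x) ≤ (∫⁻ x, f3 x) * (∫⁻ x, f4 x)
  | 0, f1, f2, f3, f4, m1, m2, m3, m4, h => by
    have key : ∀ f : (Fin 0 → ℝ) → ℝ≥0∞, ∫⁻ x, f x = f default := by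
      intro f
      rw [lintegral_unique, volume_pi, Measure.pi_univ]
      simp only [Finset.univ_eq_empty, Finset.prod_empty, mul_one]
      exact congrArg f (Subsingleton.elim _ _)
    rw [key, key, key, key]
    have := h default default
    simpa using this
  | n + 1, f1, f2, f3, f4, m1, m2, m3, m4, h => by
    rw [lint_succ m1, lint_succ m2, lint_succ m3, lint_succ m4]
    refine four (meas_succ m1).lintegral_prod_left' (meas_succ m2).lintegral_prod_left'
      (meas_succ m3).lintegral_prod_left' (meas_succ m4).lintegral_prod_left' fun v w => ?_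
    have mc : ∀ {f : (Fin (n + 1) → ℝ) → ℝ≥0∞}, Measurable f → ∀ u : Fin n → ℝ,
        Measurable fun a : ℝ => f (Fin.cons a u) := by
      intro f mf u
      exact (meas_succ mf).comp (measurable_id.prodMk measurable_const)
    refine four_one (mc m1 v) (mc m2 w) (mc m3 _) (mc m4 _) fun a b => ?_
    have h1 := h (Fin.cons a v) (Fin.cons b w)
    have e1 : (Fin.cons a v : Fin (n + 1) → ℝ) ⊔ Fin.cons b w = Fin.cons (a ⊔ b) (v ⊔ w) := by
      funext i
      refine Fin.cases ?_ (fun j => ?_) i <;> simp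
    have e2 : (Fin.cons a v : Fin (n + 1) → ℝ) ⊓ Fin.cons b w = Fin.cons (a ⊓ b) (v ⊓ w) := by
      funext i
      refine Fin.cases ?_ (fun j => ?_) i <;> simp
    rwa [e1, e2] at h1

end Pool.Agent.Y296.FF
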