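import Pool.Agent.Y296.FF.Ens

/-!
# Laguerre-type multiple integrals: integrability
-/

set_option autoImplicit false

namespace Pool.Agent.Y296.FF

open MeasureTheory Set Filter Topology
open scoped ENNReal

/-- the open orthant -/
def orth (n : ℕ) : Set (Fin n → ℝ) := {x | ∀ j, 0 < x j}

lemma orth_eq (n : ℕ) : orth n = Set.univ.pi fun _ => Ioi (0 : ℝ) := by
  ext x; simp [orth]

lemma orth_meas (n : ℕ) : MeasurableSet (orth n) := by
  rw [orth_eq]; exact MeasurableSet.univ_pi fun _ => measurableSet_Ioi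

lemma orth_open (n : ℕ) : IsOpen (orth n) := by
  rw [orth_eq]; exact isOpen_set_pi finite_univ fun _ _ => isOpen_Ioi

lemma int1 (m : ℕ) : ∀ {s : ℝ}, 0 < s →
    IntegrableOn (fun u : ℝ => Real.exp (-u) * (1 + u) ^ m * u ^ (s - 1)) (Ioi 0) := by
  induction m with
  | zero =>
    intro s hs
    simpa using Real.GammaIntegral_convergent hs
  | succ m ih =>
    intro s hs
    have h1 := ih hs
    have h2 := ih (s := s + 1) (by linarith)
    refine (h1.add h2).congr_fun (fun u hu => ?_) measurableSet_Ioi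
    have hu' : (0 : ℝ) < u := hu
    have e : u ^ (s + 1 - 1) = u * u ^ (s - 1) := by
      rw [show s + 1 - 1 = 1 + (s - 1) by ring, Real.rpow_add hu', Real.rpow_one]
    simp only [Pi.add_apply]
    rw [e]; ring

lemma intn {n : ℕ} {k : ℝ → ℝ} (hk : IntegrableOn k (Ioi 0)) :
    IntegrableOn (fun x : Fin n → ℝ => ∏ j, k (x j)) (orth n) := by
  rw [← integrable_indicator_iff (orth_meas n)]
  have h1 : Integrable ((Ioi (0 : ℝ)).indicator k) := hk.integrable_indicator measurableSet_Ioi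
  have h2 := Integrable.fintype_prod (ι := Fin n) (f := fun _ => (Ioi (0 : ℝ)).indicator k)
    (μ := fun _ => volume) fun _ => h1
  rw [volume_pi]
  refine h2.congr (Eventually.of_forall fun x => ?_)
  simp only
  by_cases hx : x ∈ orth n
  · rw [indicator_of_mem hx]
    exact Finset.prod_congr rfl fun j _ => indicator_of_mem (hx j) _
  · rw [indicator_of_notMem hx]
    simp only [orth, Set.mem_ofPred_eq, not_forall] at hx
    obtain ⟨j, hj⟩ := hx
    exact Finset.prod_eq_zero (Finset.mem_univ j) (indicator_of_notMem hj _)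

/-- the dominating functions -/
noncomputable def E0 {n : ℕ} (m : ℕ) (x : Fin n → ℝ) : ℝ :=
  ∏ j, (Real.exp (-x j) * (1 + x j) ^ m)

noncomputable def E1 {n : ℕ} (m : ℕ) (x : Fin n → ℝ) : ℝ :=
  ∏ j, (Real.exp (-x j) * (1 + x j) ^ m * (x j) ^ (-(1 / 2) : ℝ))

lemma E0_int (n m : ℕ) : IntegrableOn (E0 (n := n) m) (orth n) := by
  have h := int1 m (s := 1) one_pos
  simp only [sub_self, Real.rpow_zero, mul_one] at h
  exact intn h

lemma E1_int (n m : ℕ) : IntegrableOn (E1 (n := n) m) (orth n) := by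
  have h := int1 m (s := 1 / 2) (by norm_num)
  have e : ((1 : ℝ) / 2 - 1) = -(1 / 2) := by norm_num
  rw [e] at h
  exact intn h

/-- the weight -/
noncomputable def P {n : ℕ} (x : Fin n → ℝ) : ℝ := Real.exp (-∑ j, x j) * V x

lemma P_nonneg {n : ℕ} (x : Fin n → ℝ) : 0 ≤ P x := mul_nonneg (Real.exp_pos _).le (V_nonneg x)

lemma P_cont {n : ℕ} : Continuous (P (n := n)) := by
  unfold P
  exact (Real.continuous_exp.comp (by fun_prop)).mul V_cont

lemma V_le {n : ℕ} {x : Fin n → ℝ} (hx : x ∈ orth n) : V x ≤ ∏ j, (1 + x j) ^ (4 * n) := by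
  have h1 : ∀ i j, (x j - x i) ^ 2 ≤ (1 + x i) ^ 2 * (1 + x j) ^ 2 := by
    intro i j
    have hi := hx i
    have hj := hx j
    rw [← mul_pow]
    apply sq_le_sq'
    · nlinarith [mul_pos hi hj]
    · nlinarith [mul_pos hi hj]
  have h2 : ∀ i j, 1 ≤ (1 + x i) ^ 2 * (1 + x j) ^ 2 := by
    intro i j
    have hi := hx i
    have hj := hx j
    have e1 : 1 ≤ (1 + x i) ^ 2 := by nlinarith
    have e2 : 1 ≤ (1 + x j) ^ 2 := by nlinarith
    nlinarith
  calc V x ≤ ∏ i, ∏ j, ((1 + x i) ^ 2 * (1 + x j) ^ 2) := by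
        unfold V
        refine Finset.prod_le_prod (fun i _ => by positivity) fun i _ => ?_
        calc ∏ j ∈ Finset.Ioi i, (x j - x i) ^ 2
            ≤ ∏ j ∈ Finset.Ioi i, ((1 + x i) ^ 2 * (1 + x j) ^ 2) :=
              Finset.prod_le_prod (fun j _ => by positivity) fun j _ => h1 i j
          _ ≤ ∏ j, ((1 + x i) ^ 2 * (1 + x j) ^ 2) := by
              rw [← Finset.prod_sdiff (Finset.subset_univ (Finset.Ioi i))]
              have h3 : (1 : ℝ) ≤ ∏ j ∈ Finset.univ \ Finset.Ioi i,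
                  ((1 + x i) ^ 2 * (1 + x j) ^ 2) := by
                calc (1 : ℝ) = ∏ j ∈ Finset.univ \ Finset.Ioi i, (1 : ℝ) := by simp
                  _ ≤ _ := Finset.prod_le_prod (fun _ _ => zero_le_one) fun j _ => h2 i j
              refine le_mul_of_one_le_left (Finset.prod_nonneg fun j _ => by positivity) h3
    _ = ∏ j, (1 + x j) ^ (4 * n) := by
        simp_rw [Finset.prod_mul_distrib, Finset.prod_const, Finset.card_univ, Fintype.card_fin]
        rw [← Finset.prod_pow, ← Finset.prod_mul_distrib]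
        refine Finset.prod_congr rfl fun j _ => ?_
        rw [← pow_mul, ← pow_add]
        congr 1; ring

lemma P_le {n : ℕ} {x : Fin n → ℝ} (hx : x ∈ orth n) : P x ≤ E0 (4 * n) x := by
  unfold P E0
  rw [Finset.prod_mul_distrib, ← Finset.sum_neg_distrib, Real.exp_sum]
  exact mul_le_mul_of_nonneg_left (V_le hx) (Finset.prod_nonneg fun _ _ => (Real.exp_pos _).le)

/-- `y ^ a ≤ y + 1 / y` for `|a| ≤ 1` -/
lemma rpow_le_aux {y a : ℝ} (hy : 0 < y) (h1 : -1 ≤ a) (h2 : a ≤ 1) : y ^ a ≤ y + 1 / y := by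
  rcases le_total 1 y with h | h
  · have := Real.rpow_le_rpow_of_exponent_le h h2
    rw [Real.rpow_one] at this
    have h3 : 0 < 1 / y := by positivity
    linarith
  · have := Real.rpow_le_rpow_of_exponent_ge hy h h1
    rw [Real.rpow_neg_one] at this
    rw [one_div]
    linarith

/-- the constant in the bounds -/
noncomputable def KK (t : ℝ) : ℝ := 1 + 2 * t + 2 / t

lemma fac_le {t s u a : ℝ} (ht : 0 < t) (hs1 : t / 2 < s) (hs2 : s < 2 * t) (hu : 0 < u)
    (h1 : -1 ≤ a) (h2 : a ≤ 1) : (u + s) ^ a ≤ KK t * (1 + u) := by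
  have hy : 0 < u + s := by linarith
  refine (rpow_le_aux hy h1 h2).trans ?_
  have h3 : 1 / (u + s) ≤ 2 / t := by
    rw [div_le_div_iff₀ hy ht]; nlinarith
  have h4 : 0 < 2 / t := by positivity
  unfold KK
  nlinarith [mul_pos hu h4, mul_pos hu ht]

/-- the products -/
noncomputable def pr {n : ℕ} (a s : ℝ) (x : Fin n → ℝ) : ℝ := ∏ j, (x j + s) ^ a

/-- the sums `∑ 1 / (x_j + s)` -/
noncomputable def CC {n : ℕ} (s : ℝ) (x : Fin n → ℝ) : ℝ := ∑ j, 1 / (x j + s)

lemma pr_nonneg {n : ℕ} {a s : ℝ} (hs : 0 ≤ s) {x : Fin n → ℝ} (hx : x ∈ orth n) :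
    0 ≤ pr a s x := Finset.prod_nonneg fun j _ => Real.rpow_nonneg (by have := hx j; linarith) _

lemma CC_nonneg {n : ℕ} {s : ℝ} (hs : 0 ≤ s) {x : Fin n → ℝ} (hx : x ∈ orth n) :
    0 ≤ CC s x := Finset.sum_nonneg fun j _ => by have := hx j; positivity

lemma CC_le {n : ℕ} {t s : ℝ} (ht : 0 < t) (hs1 : t / 2 < s) {x : Fin n → ℝ} (hx : x ∈ orth n) :
    CC s x ≤ n * (2 / t) := by
  unfold CC
  calc ∑ j, 1 / (x j + s) ≤ ∑ _j : Fin n, 2 / t := by
        refine Finset.sum_le_sum fun j _ => ?_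
        have := hx j
        rw [div_le_div_iff₀ (by linarith) ht]; nlinarith
    _ = n * (2 / t) := by rw [Finset.sum_const, Finset.card_univ, Fintype.card_fin, nsmul_eq_mul]

lemma dom_le {n : ℕ} {t s a : ℝ} (ht : 0 < t) (hs1 : t / 2 < s) (hs2 : s < 2 * t)
    (h1 : -1 ≤ a) (h2 : a ≤ 1) {x : Fin n → ℝ} (hx : x ∈ orth n) :
    P x * pr a s x ≤ KK t ^ n * E0 (4 * n + 1) x := by
  have hK : 0 ≤ KK t := by unfold KK; positivity
  have e1 : pr a s x ≤ ∏ j, (KK t * (1 + x j)) :=
    Finset.prod_le_prod (fun j _ => Real.rpow_nonneg (by have := hx j; linarith) _)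
      fun j _ => fac_le ht hs1 hs2 (hx j) h1 h2
  have e2 : 0 ≤ pr a s x := pr_nonneg (by linarith) hx
  have e3 : 0 ≤ E0 (4 * n) x := (P_nonneg x).trans (P_le hx)
  calc P x * pr a s x ≤ E0 (4 * n) x * ∏ j, (KK t * (1 + x j)) :=
        mul_le_mul (P_le hx) e1 e2 e3
    _ = KK t ^ n * E0 (4 * n + 1) x := by
        unfold E0
        rw [Finset.prod_mul_distrib (f := fun _ => KK t), Finset.prod_const, Finset.card_univ,
          Fintype.card_fin, mul_left_comm, ← Finset.prod_mul_distrib]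
        congr 1
        refine Finset.prod_congr rfl fun j _ => ?_
        ring

lemma pr_meas {n : ℕ} (a s : ℝ) : Measurable (pr (n := n) a s) := by
  unfold pr
  refine Finset.measurable_prod _ fun j _ => ?_
  have h : Measurable fun x : Fin n → ℝ => x j + s := (measurable_pi_apply j).add_const _
  exact h.pow_const a

lemma CC_meas {n : ℕ} (s : ℝ) : Measurable (CC (n := n) s) := by
  unfold CC
  refine Finset.measurable_sum _ fun j _ => ?_
  have h : Measurable fun x : Fin n → ℝ => x j + s := (measurable_pi_apply j).add_const _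
  exact measurable_const.div h

/-- integrability with any power of `CC` -/
lemma base_int {n : ℕ} {t a : ℝ} (ht : 0 < t) (h1 : -1 ≤ a) (h2 : a ≤ 1) (k : ℕ) :
    IntegrableOn (fun x : Fin n → ℝ => P x * pr a t x * CC t x ^ k) (orth n) := by
  have hb := ((E0_int n (4 * n + 1)).const_mul (KK t ^ n)).mul_const ((n * (2 / t)) ^ k)
  refine Integrable.mono' hb ?_ ?_
  · exact (((P_cont.measurable.mul (pr_meas a t)).mul ((CC_meas t).pow_const k))).aestronglyMeasurable
  · refine (ae_restrict_mem (orth_meas n)).mono fun x hx => ?_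
    have e0 : 0 ≤ CC t x := CC_nonneg ht.le hx
    have e1 : 0 ≤ P x * pr a t x := mul_nonneg (P_nonneg x) (pr_nonneg ht.le hx)
    rw [Real.norm_of_nonneg (mul_nonneg e1 (pow_nonneg e0 k))]
    refine mul_le_mul (dom_le ht (by linarith) (by linarith) h1 h2 hx)
      (pow_le_pow_left₀ e0 (CC_le ht (by linarith) hx) k) (pow_nonneg e0 k) ?_
    exact e1.trans (dom_le ht (by linarith) (by linarith) h1 h2 hx)

end Pool.Agent.Y296.FF
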