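import Pool.Agent.Y296.FF.Lag1

/-!
# Laguerre-type multiple integrals: derivatives and continuity
-/

set_option autoImplicit false

namespace Pool.Agent.Y296.FF

open MeasureTheory Set Filter Topology
open scoped ENNReal

lemma pr_deriv {n : ℕ} {a s : ℝ} (hs : 0 < s) {x : Fin n → ℝ} (hx : x ∈ orth n) :
    HasDerivAt (fun s => pr a s x) (a * (pr a s x * CC s x)) s := by
  have h1 : ∀ j ∈ (Finset.univ : Finset (Fin n)),
      HasDerivAt (fun s => (x j + s) ^ a) (1 * a * (x j + s) ^ (a - 1)) s := by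
    intro j _
    have hj := hx j
    have h2 : x j + s ≠ 0 := ne_of_gt (by linarith)
    exact ((hasDerivAt_id s).const_add (x j)).rpow_const (Or.inl h2)
  have h3 := HasDerivAt.fun_finsetProd h1
  unfold pr
  refine h3.congr_deriv ?_
  rw [CC, Finset.mul_sum, Finset.mul_sum]
  refine Finset.sum_congr rfl fun i _ => ?_
  have hi := hx i
  have h4 : x i + s ≠ 0 := ne_of_gt (by linarith)
  rw [smul_eq_mul, Real.rpow_sub_one h4, ← Finset.prod_erase_mul _ _ (Finset.mem_univ i)]
  field_simp

/-- the integrals -/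
noncomputable def II (n : ℕ) (a t : ℝ) : ℝ := ∫ x in orth n, P x * pr a t x

/-- the integrals with a power of `CC` -/
noncomputable def JJ (n : ℕ) (a t : ℝ) (k : ℕ) : ℝ :=
  ∫ x in orth n, P x * pr a t x * CC t x ^ k

theorem II_deriv {n : ℕ} {a t : ℝ} (ht : 0 < t) (h1 : -1 ≤ a) (h2 : a ≤ 1) :
    HasDerivAt (fun s => II n a s) (a * JJ n a t 1) t := by
  have hmem : Ioo (t / 2) (2 * t) ∈ 𝓝 t := Ioo_mem_nhds (by linarith) (by linarith)
  have hm : ∀ s, AEStronglyMeasurable (fun x : Fin n → ℝ => P x * pr a s x)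
      (volume.restrict (orth n)) := fun s =>
    (P_cont.measurable.mul (pr_meas a s)).aestronglyMeasurable
  have hi : Integrable (fun x : Fin n → ℝ => P x * pr a t x) (volume.restrict (orth n)) := by
    have := base_int (n := n) ht h1 h2 0
    simp only [pow_zero, mul_one] at this
    exact this
  have hb := ((E0_int n (4 * n + 1)).const_mul (KK t ^ n)).mul_const (n * (2 / t))
  have key := hasDerivAt_integral_of_dominated_loc_of_deriv_le (𝕜 := ℝ)
    (μ := volume.restrict (orth n)) (x₀ := t) (s := Ioo (t / 2) (2 * t))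
    (F := fun s (x : Fin n → ℝ) => P x * pr a s x)
    (F' := fun s (x : Fin n → ℝ) => P x * (a * (pr a s x * CC s x)))
    (bound := fun x : Fin n → ℝ => KK t ^ n * E0 (4 * n + 1) x * (n * (2 / t)))
    hmem (Eventually.of_forall hm) hi
    ((P_cont.measurable.mul (((pr_meas a t).mul (CC_meas t)).const_mul a)).aestronglyMeasurable)
    ?_ hb ?_
  · have h3 := key.2
    have h4 : ∫ x in orth n, P x * (a * (pr a t x * CC t x)) = a * JJ n a t 1 := by
      rw [JJ, ← integral_const_mul]
      congr 1
      funext x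
      ring
    rw [h4] at h3
    exact h3
  · refine (ae_restrict_mem (orth_meas n)).mono fun x hx s hs => ?_
    have hs0 : 0 < s := by have := hs.1; linarith
    have e0 : 0 ≤ CC s x := CC_nonneg hs0.le hx
    have e1 : 0 ≤ P x * pr a s x := mul_nonneg (P_nonneg x) (pr_nonneg hs0.le hx)
    have e2 : |a| ≤ 1 := abs_le.2 ⟨h1, h2⟩
    have e3 : P x * (a * (pr a s x * CC s x)) = a * (P x * pr a s x * CC s x) := by ring
    rw [e3, norm_mul, Real.norm_eq_abs, Real.norm_of_nonneg (mul_nonneg e1 e0)]
    have e4 : P x * pr a s x * CC s x ≤ KK t ^ n * E0 (4 * n + 1) x * (n * (2 / t)) :=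
      mul_le_mul (dom_le ht hs.1 hs.2 h1 h2 hx) (CC_le ht hs.1 hx) e0
        (e1.trans (dom_le ht hs.1 hs.2 h1 h2 hx))
    calc |a| * (P x * pr a s x * CC s x) ≤ 1 * (P x * pr a s x * CC s x) :=
          mul_le_mul_of_nonneg_right e2 (mul_nonneg e1 e0)
      _ ≤ _ := by rw [one_mul]; exact e4
  · refine (ae_restrict_mem (orth_meas n)).mono fun x hx s hs => ?_
    have hs0 : 0 < s := by have := hs.1; linarith
    exact (pr_deriv hs0 hx).const_mul _

lemma pr_cont {n : ℕ} {a : ℝ} {x : Fin n → ℝ} (hx : x ∈ orth n) :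
    ContinuousOn (fun s => P x * pr a s x) (Ici 0) := by
  refine continuousOn_const.mul ?_
  unfold pr
  refine continuousOn_finsetProd _ fun j _ => ?_
  refine ContinuousOn.rpow_const (by fun_prop) fun s hs => Or.inl ?_
  have hj := hx j
  have : (0 : ℝ) ≤ s := hs
  exact ne_of_gt (by linarith)

theorem II_neg_cont (n : ℕ) : ContinuousOn (fun s => II n (-(1 / 2)) s) (Ici 0) := by
  refine continuousOn_of_dominated (bound := E1 (4 * n)) (fun s _ => ?_) (fun s hs => ?_)
    (E1_int n (4 * n)) ?_
  · exact (P_cont.measurable.mul (pr_meas _ s)).aestronglyMeasurable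
  · refine (ae_restrict_mem (orth_meas n)).mono fun x hx => ?_
    have hs0 : (0 : ℝ) ≤ s := hs
    rw [Real.norm_of_nonneg (mul_nonneg (P_nonneg x) (pr_nonneg hs0 hx))]
    have e3 : 0 ≤ E0 (4 * n) x := (P_nonneg x).trans (P_le hx)
    calc P x * pr (-(1 / 2)) s x ≤ E0 (4 * n) x * ∏ j, (x j) ^ (-(1 / 2) : ℝ) := by
          refine mul_le_mul (P_le hx) ?_ (pr_nonneg hs0 hx) e3
          refine Finset.prod_le_prod (fun j _ => Real.rpow_nonneg (by have := hx j; linarith) _)
            fun j _ => ?_
          exact Real.rpow_le_rpow_of_nonpos (hx j) (by linarith) (by norm_num)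
      _ = E1 (4 * n) x := by
          unfold E0 E1
          rw [← Finset.prod_mul_distrib]
  · exact (ae_restrict_mem (orth_meas n)).mono fun x hx => pr_cont hx

theorem II_pos_cont0 (n : ℕ) : ContinuousOn (fun s => II n (1 / 2) s) (Icc 0 1) := by
  refine continuousOn_of_dominated (bound := fun x => 2 ^ n * E0 (4 * n + 1) x)
    (fun s _ => ?_) (fun s hs => ?_) ((E0_int n (4 * n + 1)).const_mul (2 ^ n)) ?_
  · exact (P_cont.measurable.mul (pr_meas _ s)).aestronglyMeasurable
  · refine (ae_restrict_mem (orth_meas n)).mono fun x hx => ?_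
    rw [Real.norm_of_nonneg (mul_nonneg (P_nonneg x) (pr_nonneg hs.1 hx))]
    have e3 : 0 ≤ E0 (4 * n) x := (P_nonneg x).trans (P_le hx)
    calc P x * pr (1 / 2) s x ≤ E0 (4 * n) x * ∏ j, (2 * (1 + x j)) := by
          refine mul_le_mul (P_le hx) ?_ (pr_nonneg hs.1 hx) e3
          refine Finset.prod_le_prod (fun j _ => Real.rpow_nonneg
            (by have := hx j; linarith [hs.1]) _) fun j _ => ?_
          have hj := hx j
          have e4 : (x j + s) ^ (1 / 2 : ℝ) ≤ (1 + x j) ^ (1 / 2 : ℝ) :=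
            Real.rpow_le_rpow (by linarith [hs.1]) (by linarith [hs.2]) (by norm_num)
          have e5 : (1 + x j) ^ (1 / 2 : ℝ) ≤ (1 + x j) ^ (1 : ℝ) :=
            Real.rpow_le_rpow_of_exponent_le (by linarith) (by norm_num)
          rw [Real.rpow_one] at e5
          linarith
      _ = 2 ^ n * E0 (4 * n + 1) x := by
          unfold E0
          rw [Finset.prod_mul_distrib (f := fun _ => (2 : ℝ)), Finset.prod_const, Finset.card_univ,
            Fintype.card_fin, mul_left_comm, ← Finset.prod_mul_distrib]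
          congr 1
          refine Finset.prod_congr rfl fun j _ => ?_
          ring
  · exact (ae_restrict_mem (orth_meas n)).mono fun x hx => (pr_cont hx).mono fun s hs => hs.1

theorem II_pos_cont (n : ℕ) : ContinuousOn (fun s => II n (1 / 2) s) (Ici 0) := by
  intro t ht
  rcases eq_or_lt_of_le (show (0 : ℝ) ≤ t from ht) with h | h
  · subst h
    have h1 := II_pos_cont0 n 0 ⟨le_rfl, zero_le_one⟩
    exact h1.mono_of_mem_nhdsWithin (Icc_mem_nhdsGE one_pos)
  · exact (II_deriv h (by norm_num) (by norm_num)).continuousAt.continuousWithinAt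

end Pool.Agent.Y296.FF
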