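import Pool.Agent.Y296.FF.Lag2

/-!
# Laguerre-type multiple integrals: the inequality
-/

set_option autoImplicit false

namespace Pool.Agent.Y296.FF

open MeasureTheory Set Filter Topology
open scoped ENNReal

/-- the one-body weight -/
noncomputable def ww (t u : ℝ) : ℝ≥0∞ :=
  if 0 < u then ENNReal.ofReal (Real.exp (-u) * (u + t) ^ (-(1 / 2) : ℝ)) else 0

lemma ww_meas (t : ℝ) : Measurable (ww t) := by
  unfold ww
  refine Measurable.ite measurableSet_Ioi (ENNReal.measurable_ofReal.comp ?_) measurable_const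
  have h : Measurable fun u : ℝ => u + t := measurable_id.add_const t
  exact (Real.measurable_exp.comp measurable_neg).mul (h.pow_const _)

lemma dens_ww {n : ℕ} {t : ℝ} (ht : 0 < t) (x : Fin n → ℝ) :
    dens (ww t) x = (orth n).indicator (fun x => ENNReal.ofReal (P x * pr (-(1 / 2)) t x)) x := by
  by_cases hx : x ∈ orth n
  · rw [indicator_of_mem hx, dens]
    have h1 : ∏ j, ww t (x j) =
        ENNReal.ofReal (∏ j, (Real.exp (-x j) * (x j + t) ^ (-(1 / 2) : ℝ))) := by
      rw [ENNReal.ofReal_prod_of_nonneg]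
      · refine Finset.prod_congr rfl fun j _ => ?_
        rw [ww, if_pos (hx j)]
      · intro j _
        have := hx j
        positivity
    rw [h1, ← ENNReal.ofReal_mul]
    · congr 1
      rw [P, pr, Finset.prod_mul_distrib, ← Finset.sum_neg_distrib, Real.exp_sum]
      ring
    · refine Finset.prod_nonneg fun j _ => ?_
      have := hx j
      positivity
  · rw [indicator_of_notMem hx, dens]
    simp only [orth, Set.mem_ofPred_eq, not_forall] at hx
    obtain ⟨j, hj⟩ := hx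
    rw [Finset.prod_eq_zero (Finset.mem_univ j), zero_mul]
    rw [ww, if_neg hj]

lemma conv {n : ℕ} {t : ℝ} (ht : 0 < t) {g : (Fin n → ℝ) → ℝ} {G' : (Fin n → ℝ) → ℝ≥0∞}
    (hG : ∀ x ∈ orth n, G' x = ENNReal.ofReal (g x)) (hg : ∀ x ∈ orth n, 0 ≤ g x)
    (hi : IntegrableOn (fun x => P x * pr (-(1 / 2)) t x * g x) (orth n)) :
    ∫⁻ x, dens (ww t) x * G' x =
      ENNReal.ofReal (∫ x in orth n, P x * pr (-(1 / 2)) t x * g x) := by
  have h1 : ∀ x, dens (ww t) x * G' x =
      (orth n).indicator (fun x => ENNReal.ofReal (P x * pr (-(1 / 2)) t x * g x)) x := by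
    intro x
    rw [dens_ww ht]
    by_cases hx : x ∈ orth n
    · rw [indicator_of_mem hx, indicator_of_mem hx, hG x hx, ← ENNReal.ofReal_mul]
      exact mul_nonneg (P_nonneg x) (pr_nonneg ht.le hx)
    · rw [indicator_of_notMem hx, indicator_of_notMem hx, zero_mul]
  rw [lintegral_congr h1, lintegral_indicator (orth_meas n), ofReal_integral_eq_lintegral_ofReal hi]
  exact (ae_restrict_mem (orth_meas n)).mono fun x hx =>
    mul_nonneg (mul_nonneg (P_nonneg x) (pr_nonneg ht.le hx)) (hg x hx)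

/-- global versions -/
noncomputable def Rp {n : ℕ} (t : ℝ) (x : Fin n → ℝ) : ℝ := ∏ j, (max (x j) 0 + t)

noncomputable def Cp {n : ℕ} (t : ℝ) (x : Fin n → ℝ) : ℝ := ∑ j, 1 / (max (x j) 0 + t)

lemma Cp_nonneg {n : ℕ} {t : ℝ} (ht : 0 < t) (x : Fin n → ℝ) : 0 ≤ Cp t x :=
  Finset.sum_nonneg fun j _ => by have := le_max_right (x j) 0; positivity

lemma Rp_nonneg {n : ℕ} {t : ℝ} (ht : 0 < t) (x : Fin n → ℝ) : 0 ≤ Rp t x :=
  Finset.prod_nonneg fun j _ => by have := le_max_right (x j) 0; positivity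

lemma Cp_eq {n : ℕ} {t : ℝ} {x : Fin n → ℝ} (hx : x ∈ orth n) : Cp t x = CC t x := by
  unfold Cp CC
  refine Finset.sum_congr rfl fun j _ => ?_
  rw [max_eq_left (hx j).le]

lemma Rp_eq {n : ℕ} {t : ℝ} {x : Fin n → ℝ} (hx : x ∈ orth n) : Rp t x = ∏ j, (x j + t) := by
  unfold Rp
  refine Finset.prod_congr rfl fun j _ => ?_
  rw [max_eq_left (hx j).le]

lemma Cp_cont {n : ℕ} {t : ℝ} (ht : 0 < t) : Continuous (Cp (n := n) t) := by
  unfold Cp
  refine continuous_finsetSum _ fun j _ => ?_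
  refine Continuous.div continuous_const (by fun_prop) fun x => ?_
  have := le_max_right (x j) 0
  positivity

lemma Rp_cont {n : ℕ} (t : ℝ) : Continuous (Rp (n := n) t) := by
  unfold Rp
  fun_prop

lemma Cp_anti {n : ℕ} {t : ℝ} (ht : 0 < t) : Antitone (Cp (n := n) t) := by
  intro x y hxy
  refine Finset.sum_le_sum fun j _ => ?_
  have h1 := le_max_right (x j) 0
  have h2 : max (x j) 0 ≤ max (y j) 0 := max_le_max_right 0 (hxy j)
  exact one_div_le_one_div_of_le (by positivity) (by linarith)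

/-- products increase faster than sums of reciprocals decrease -/
lemma prod_sub_ge {ι : Type*} (s : Finset ι) {t : ℝ} (ht : 0 < t) {a b : ι → ℝ}
    (ha : ∀ i, t ≤ a i) (hab : ∀ i, a i ≤ b i) :
    t ^ (s.card + 1) * ∑ i ∈ s, (1 / a i - 1 / b i) ≤ ∏ i ∈ s, b i - ∏ i ∈ s, a i := by
  classical
  induction s using Finset.induction_on with
  | empty => simp
  | insert j s hj ih =>
    rw [Finset.sum_insert hj, Finset.prod_insert hj, Finset.prod_insert hj,
      Finset.card_insert_of_notMem hj]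
    have haj : 0 < a j := ht.trans_le (ha j)
    have hbj : 0 < b j := haj.trans_le (hab j)
    have h1 : t ^ s.card ≤ ∏ i ∈ s, a i := by
      calc t ^ s.card = ∏ _i ∈ s, t := by rw [Finset.prod_const]
        _ ≤ _ := Finset.prod_le_prod (fun _ _ => ht.le) fun i _ => ha i
    have h2 : 1 / a j - 1 / b j ≤ (b j - a j) / t ^ 2 := by
      rw [div_sub_div _ _ haj.ne' hbj.ne', one_mul, mul_one]
      apply div_le_div_of_nonneg_left (by linarith [hab j]) (by positivity)
      have := ha j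
      have := (ha j).trans (hab j)
      nlinarith
    have h3 : 0 ≤ ∏ i ∈ s, b i - ∏ i ∈ s, a i := by
      have := Finset.prod_le_prod (s := s) (f := a) (g := b)
        (fun i _ => (ht.trans_le (ha i)).le) fun i _ => hab i
      linarith
    have h4 : t ≤ b j := (ha j).trans (hab j)
    have h5 : t * (t ^ (s.card + 1) * ∑ i ∈ s, (1 / a i - 1 / b i)) ≤
        b j * (∏ i ∈ s, b i - ∏ i ∈ s, a i) := by
      calc _ ≤ t * (∏ i ∈ s, b i - ∏ i ∈ s, a i) := mul_le_mul_of_nonneg_left ih ht.le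
        _ ≤ _ := mul_le_mul_of_nonneg_right h4 h3
    have h6 : t ^ (s.card + 2) * (1 / a j - 1 / b j) ≤ (b j - a j) * ∏ i ∈ s, a i := by
      calc t ^ (s.card + 2) * (1 / a j - 1 / b j) ≤ t ^ (s.card + 2) * ((b j - a j) / t ^ 2) :=
            mul_le_mul_of_nonneg_left h2 (by positivity)
        _ = (b j - a j) * t ^ s.card := by
            field_simp
            ring
        _ ≤ _ := mul_le_mul_of_nonneg_left h1 (by linarith [hab j])
    have e1 : t ^ (s.card + 1 + 1) * (1 / a j - 1 / b j + ∑ i ∈ s, (1 / a i - 1 / b i)) =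
        t ^ (s.card + 2) * (1 / a j - 1 / b j) +
          t * (t ^ (s.card + 1) * ∑ i ∈ s, (1 / a i - 1 / b i)) := by ring
    rw [e1]
    nlinarith

lemma RpCp_mono {n : ℕ} {t : ℝ} (ht : 0 < t) :
    Monotone fun x : Fin n → ℝ => Rp t x + t ^ (n + 1) * Cp t x := by
  intro x y hxy
  have h := prod_sub_ge (Finset.univ : Finset (Fin n)) ht
    (a := fun j => max (x j) 0 + t) (b := fun j => max (y j) 0 + t)
    (fun j => by have := le_max_right (x j) 0; linarith)
    (fun j => by have := max_le_max_right 0 (hxy j); linarith)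
  rw [Finset.card_univ, Fintype.card_fin, Finset.sum_sub_distrib] at h
  simp only [Rp, Cp]
  linarith

lemma Rp_perm {n : ℕ} (t : ℝ) (σ : Equiv.Perm (Fin n)) (x : Fin n → ℝ) :
    Rp t (x ∘ σ) = Rp t x := Equiv.prod_comp σ fun j => max (x j) 0 + t

lemma Cp_perm {n : ℕ} (t : ℝ) (σ : Equiv.Perm (Fin n)) (x : Fin n → ℝ) :
    Cp t (x ∘ σ) = Cp t x := Equiv.sum_comp σ fun j => 1 / (max (x j) 0 + t)

lemma pr_mul {n : ℕ} {t : ℝ} (ht : 0 < t) {x : Fin n → ℝ} (hx : x ∈ orth n) :
    pr (-(1 / 2)) t x * ∏ j, (x j + t) = pr (1 / 2) t x := by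
  unfold pr
  rw [← Finset.prod_mul_distrib]
  refine Finset.prod_congr rfl fun j _ => ?_
  have h := hx j
  rw [← Real.rpow_add_one (by positivity)]
  norm_num

lemma int_half {n : ℕ} {t : ℝ} (ht : 0 < t) {a : ℝ} (h1 : -1 ≤ a) (h2 : a ≤ 1) :
    IntegrableOn (fun x : Fin n → ℝ => P x * pr a t x) (orth n) := by
  have := base_int (n := n) ht h1 h2 0
  simp only [pow_zero, mul_one] at this
  exact this

/-- the FKG inequality for our functions -/
theorem fkg_real {n : ℕ} {t : ℝ} (ht : 0 < t) :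
    (JJ n (1 / 2) t 1 + t ^ (n + 1) * JJ n (-(1 / 2)) t 2) * II n (-(1 / 2)) t ≤
      (II n (1 / 2) t + t ^ (n + 1) * JJ n (-(1 / 2)) t 1) * JJ n (-(1 / 2)) t 1 := by
  set δ : ℝ := t ^ (n + 1) with hδ
  have hδ0 : 0 < δ := by positivity
  have b0 := int_half (n := n) ht (a := -(1 / 2)) (by norm_num) (by norm_num)
  have b1 := base_int (n := n) ht (a := -(1 / 2)) (by norm_num) (by norm_num) 1
  have b2 := base_int (n := n) ht (a := -(1 / 2)) (by norm_num) (by norm_num) 2
  have c0 := int_half (n := n) ht (a := 1 / 2) (by norm_num) (by norm_num)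
  have c1 := base_int (n := n) ht (a := 1 / 2) (by norm_num) (by norm_num) 1
  have key := fkg (n := n) (ww_meas t)
    (A := fun x => ENNReal.ofReal (Rp t x + δ * Cp t x)) (C := fun x => ENNReal.ofReal (Cp t x))
    (ENNReal.measurable_ofReal.comp ((Rp_cont t).measurable.add
      ((Cp_cont ht).measurable.const_mul δ)))
    (ENNReal.measurable_ofReal.comp (Cp_cont ht).measurable)
    (fun σ x => by rw [Rp_perm, Cp_perm]) (fun σ x => by rw [Cp_perm])
    (fun x y h => ENNReal.ofReal_le_ofReal (RpCp_mono ht h))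
    (fun x y h => ENNReal.ofReal_le_ofReal (Cp_anti ht h))
  -- the four integrals
  have i1 : ∀ x ∈ orth n, P x * pr (-(1 / 2)) t x * ((Rp t x + δ * Cp t x) * Cp t x) =
      P x * pr (1 / 2) t x * CC t x ^ 1 + δ * (P x * pr (-(1 / 2)) t x * CC t x ^ 2) := by
    intro x hx
    rw [Rp_eq hx, Cp_eq hx, ← pr_mul ht hx]; ring
  have i3 : ∀ x ∈ orth n, P x * pr (-(1 / 2)) t x * (Rp t x + δ * Cp t x) =
      P x * pr (1 / 2) t x + δ * (P x * pr (-(1 / 2)) t x * CC t x ^ 1) := by
    intro x hx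
    rw [Rp_eq hx, Cp_eq hx, ← pr_mul ht hx]; ring
  have i4 : ∀ x ∈ orth n, P x * pr (-(1 / 2)) t x * Cp t x =
      P x * pr (-(1 / 2)) t x * CC t x ^ 1 := by
    intro x hx
    rw [Cp_eq hx]; ring
  have e1 : ∫⁻ x : Fin n → ℝ, dens (ww t) x * (ENNReal.ofReal (Rp t x + δ * Cp t x) *
      ENNReal.ofReal (Cp t x)) =
      ENNReal.ofReal (JJ n (1 / 2) t 1 + δ * JJ n (-(1 / 2)) t 2) := by
    rw [conv ht (g := fun x => (Rp t x + δ * Cp t x) * Cp t x)
      (fun x _ => by
        rw [← ENNReal.ofReal_mul (add_nonneg (Rp_nonneg ht x) (mul_nonneg hδ0.le (Cp_nonneg ht x)))])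
      (fun x _ => mul_nonneg (add_nonneg (Rp_nonneg ht x) (mul_nonneg hδ0.le (Cp_nonneg ht x)))
        (Cp_nonneg ht x))
      ((c1.add (b2.const_mul δ)).congr_fun (fun x hx => (i1 x hx).symm) (orth_meas n))]
    congr 1
    rw [setIntegral_congr_fun (orth_meas n) i1, integral_add c1 (b2.const_mul δ),
      integral_const_mul]
    rfl
  have e2 : ∫⁻ x : Fin n → ℝ, dens (ww t) x = ENNReal.ofReal (II n (-(1 / 2)) t) := by
    have h := conv (n := n) ht (g := fun _ => 1) (G' := fun _ => 1) (fun x _ => by simp)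
      (fun x _ => zero_le_one) (by simpa using b0)
    simp only [mul_one] at h
    exact h
  have e3 : ∫⁻ x : Fin n → ℝ, dens (ww t) x * ENNReal.ofReal (Rp t x + δ * Cp t x) =
      ENNReal.ofReal (II n (1 / 2) t + δ * JJ n (-(1 / 2)) t 1) := by
    rw [conv ht (g := fun x => (Rp t x + δ * Cp t x)) (fun x _ => rfl)
      (fun x _ => add_nonneg (Rp_nonneg ht x) (mul_nonneg hδ0.le (Cp_nonneg ht x)))
      ((c0.add (b1.const_mul δ)).congr_fun (fun x hx => (i3 x hx).symm) (orth_meas n))]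
    congr 1
    rw [setIntegral_congr_fun (orth_meas n) i3, integral_add c0 (b1.const_mul δ),
      integral_const_mul]
    rfl
  have e4 : ∫⁻ x : Fin n → ℝ, dens (ww t) x * ENNReal.ofReal (Cp t x) =
      ENNReal.ofReal (JJ n (-(1 / 2)) t 1) := by
    rw [conv ht (g := fun x => Cp t x) (fun x _ => rfl) (fun x _ => Cp_nonneg ht x)
      (b1.congr_fun (fun x hx => (i4 x hx).symm) (orth_meas n))]
    congr 1
    rw [setIntegral_congr_fun (orth_meas n) i4]
    rfl
  rw [e1, e2, e3, e4] at key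
  have nn : ∀ (a : ℝ) (k : ℕ), 0 ≤ JJ n a t k := fun a k =>
    setIntegral_nonneg (orth_meas n) fun x hx => mul_nonneg
      (mul_nonneg (P_nonneg x) (pr_nonneg ht.le hx)) (pow_nonneg (CC_nonneg ht.le hx) k)
  have nI : ∀ a : ℝ, 0 ≤ II n a t := fun a =>
    setIntegral_nonneg (orth_meas n) fun x hx => mul_nonneg (P_nonneg x) (pr_nonneg ht.le hx)
  rw [← ENNReal.ofReal_mul (add_nonneg (nn _ _) (mul_nonneg hδ0.le (nn _ _))),
    ← ENNReal.ofReal_mul (add_nonneg (nI _) (mul_nonneg hδ0.le (nn _ _)))] at key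
  exact (ENNReal.ofReal_le_ofReal_iff (mul_nonneg (add_nonneg (nI _)
    (mul_nonneg hδ0.le (nn _ _))) (nn _ _))).1 key

end Pool.Agent.Y296.FF
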