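import Pool.Agent.Y296.FF.Lag3

/-!
# Laguerre-type multiple integrals: strictness and the final theorem
-/

set_option autoImplicit false

namespace Pool.Agent.Y296.FF

open MeasureTheory Set Filter Topology
open scoped ENNReal

lemma pr_pos {n : ℕ} {a s : ℝ} (hs : 0 ≤ s) {x : Fin n → ℝ} (hx : x ∈ orth n) : 0 < pr a s x :=
  Finset.prod_pos fun j _ => Real.rpow_pos_of_pos (by have := hx j; linarith) _

lemma P_pos {n : ℕ} {x : Fin n → ℝ} (hV : V x ≠ 0) : 0 < P x :=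
  mul_pos (Real.exp_pos _) (lt_of_le_of_ne (V_nonneg x) hV.symm)

/-- positivity of integrals -/
lemma int_pos {n : ℕ} {f : (Fin n → ℝ) → ℝ} (hf : IntegrableOn f (orth n))
    (h0 : ∀ x ∈ orth n, 0 ≤ f x) {U : Set (Fin n → ℝ)} (hU : IsOpen U) (hne : U.Nonempty)
    (hsub : U ⊆ orth n) (hpos : ∀ x ∈ U, 0 < f x) : 0 < ∫ x in orth n, f x := by
  rw [setIntegral_pos_iff_support_of_nonneg_ae
    ((ae_restrict_mem (orth_meas n)).mono fun x hx => h0 x hx) hf]
  refine lt_of_lt_of_le (hU.measure_pos volume hne) (measure_mono fun x hx => ?_)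
  exact ⟨(hpos x hx).ne', hsub hx⟩

/-- test points -/
def pt (n : ℕ) (l : ℝ) : Fin n → ℝ := fun j => l * ((j : ℝ) + 1)

lemma pt_orth {n : ℕ} {l : ℝ} (hl : 0 < l) : pt n l ∈ orth n := fun j => by
  unfold pt; positivity

lemma pt_V {n : ℕ} {l : ℝ} (hl : 0 < l) : V (pt n l) ≠ 0 := by
  rw [V_eq]
  have h : (Matrix.vandermonde (pt n l)).det ≠ 0 := by
    rw [Matrix.det_vandermonde_ne_zero_iff]
    intro i j hij
    have h1 : l * ((i : ℝ) + 1) = l * ((j : ℝ) + 1) := hij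
    have h2 := mul_left_cancel₀ hl.ne' h1
    have h3 : ((i : ℕ) : ℝ) = ((j : ℕ) : ℝ) := by linarith
    exact Fin.ext (by exact_mod_cast h3)
  positivity

lemma pt_C {n : ℕ} (hn : 1 ≤ n) {t : ℝ} (ht : 0 < t) : CC t (pt n 2) < CC t (pt n 1) := by
  unfold CC
  have : Nonempty (Fin n) := ⟨⟨0, hn⟩⟩
  refine Finset.sum_lt_sum_of_nonempty Finset.univ_nonempty fun j _ => ?_
  unfold pt
  apply one_div_lt_one_div_of_lt (by positivity)
  have : (0 : ℝ) ≤ (j : ℝ) := by positivity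
  linarith

lemma II_pos {n : ℕ} {t : ℝ} (ht : 0 < t) : 0 < II n (-(1 / 2)) t := by
  refine int_pos (int_half ht (by norm_num) (by norm_num))
    (fun x hx => mul_nonneg (P_nonneg x) (pr_nonneg ht.le hx))
    (U := orth n ∩ {x | V x ≠ 0}) ((orth_open n).inter (isOpen_ne_fun V_cont continuous_const))
    ⟨pt n 1, pt_orth one_pos, pt_V one_pos⟩ inter_subset_left fun x hx => ?_
  exact mul_pos (P_pos hx.2) (pr_pos ht.le hx.1)

/-- strict Cauchy-Schwarz inequality -/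
theorem strict_cs {n : ℕ} (hn : 1 ≤ n) {t : ℝ} (ht : 0 < t) :
    JJ n (-(1 / 2)) t 1 ^ 2 < II n (-(1 / 2)) t * JJ n (-(1 / 2)) t 2 := by
  have b0 := int_half (n := n) ht (a := -(1 / 2)) (by norm_num) (by norm_num)
  have b1 := base_int (n := n) ht (a := -(1 / 2)) (by norm_num) (by norm_num) 1
  have b2 := base_int (n := n) ht (a := -(1 / 2)) (by norm_num) (by norm_num) 2
  have hI := II_pos (n := n) ht
  set c : ℝ := JJ n (-(1 / 2)) t 1 / II n (-(1 / 2)) t with hc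
  have e : ∀ x : Fin n → ℝ, P x * pr (-(1 / 2)) t x * (CC t x - c) ^ 2 =
      P x * pr (-(1 / 2)) t x * CC t x ^ 2 -
        2 * c * (P x * pr (-(1 / 2)) t x * CC t x ^ 1) + c ^ 2 * (P x * pr (-(1 / 2)) t x) := by
    intro x; ring
  have hint : IntegrableOn (fun x : Fin n → ℝ => P x * pr (-(1 / 2)) t x * (CC t x - c) ^ 2)
      (orth n) := by
    simp_rw [e]
    exact (b2.sub (b1.const_mul (2 * c))).add (b0.const_mul (c ^ 2))
  have hval : ∫ x in orth n, P x * pr (-(1 / 2)) t x * (CC t x - c) ^ 2 =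
      JJ n (-(1 / 2)) t 2 - 2 * c * JJ n (-(1 / 2)) t 1 + c ^ 2 * II n (-(1 / 2)) t := by
    simp_rw [e]
    have h1 := integral_add (b2.sub (b1.const_mul (2 * c))) (b0.const_mul (c ^ 2))
    have h2 := integral_sub b2 (b1.const_mul (2 * c))
    simp only [Pi.sub_apply] at h1 h2
    rw [h1, h2, integral_const_mul, integral_const_mul]
    rfl
  have hpos : 0 < ∫ x in orth n, P x * pr (-(1 / 2)) t x * (CC t x - c) ^ 2 := by
    refine int_pos hint (fun x hx => mul_nonneg (mul_nonneg (P_nonneg x) (pr_nonneg ht.le hx))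
      (sq_nonneg _)) (U := (orth n ∩ {x | V x ≠ 0}) ∩ {x | Cp t x ≠ c})
      (((orth_open n).inter (isOpen_ne_fun V_cont continuous_const)).inter
        (isOpen_ne_fun (Cp_cont ht) continuous_const)) ?_
      (fun x hx => hx.1.1) fun x hx => ?_
    · have h1 := pt_C hn ht
      by_cases h2 : CC t (pt n 1) = c
      · refine ⟨pt n 2, ⟨pt_orth two_pos, pt_V two_pos⟩, ?_⟩
        have h3 : Cp t (pt n 2) ≠ c := by
          rw [Cp_eq (pt_orth two_pos), ← h2]; exact h1.ne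
        exact h3
      · refine ⟨pt n 1, ⟨pt_orth one_pos, pt_V one_pos⟩, ?_⟩
        have h3 : Cp t (pt n 1) ≠ c := by
          rw [Cp_eq (pt_orth one_pos)]; exact h2
        exact h3
    · refine mul_pos (mul_pos (P_pos hx.1.2) (pr_pos ht.le hx.1.1)) ?_
      have h3 : Cp t x ≠ c := hx.2
      rw [Cp_eq hx.1.1] at h3
      have := sub_ne_zero.2 h3
      positivity
  rw [hval] at hpos
  have h1 : c * II n (-(1 / 2)) t = JJ n (-(1 / 2)) t 1 := by
    rw [hc, div_mul_cancel₀ _ hI.ne']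
  have h2 : JJ n (-(1 / 2)) t 2 - c * JJ n (-(1 / 2)) t 1 > 0 := by
    have h3 : c ^ 2 * II n (-(1 / 2)) t = c * JJ n (-(1 / 2)) t 1 := by rw [← h1]; ring
    rw [h3] at hpos
    linarith
  have h3 : 0 < II n (-(1 / 2)) t * (JJ n (-(1 / 2)) t 2 - c * JJ n (-(1 / 2)) t 1) :=
    mul_pos hI h2
  have h4 : II n (-(1 / 2)) t * (JJ n (-(1 / 2)) t 2 - c * JJ n (-(1 / 2)) t 1) =
      II n (-(1 / 2)) t * JJ n (-(1 / 2)) t 2 -
        (c * II n (-(1 / 2)) t) * JJ n (-(1 / 2)) t 1 := by ring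
  rw [h4, h1] at h3
  nlinarith

/-- The strict inequality behind `H < 0`. -/
theorem H_neg {n : ℕ} (hn : 1 ≤ n) {t : ℝ} (ht : 0 < t) :
    JJ n (1 / 2) t 1 * II n (-(1 / 2)) t - II n (1 / 2) t * JJ n (-(1 / 2)) t 1 < 0 := by
  have h1 := fkg_real (n := n) ht
  have h2 := strict_cs hn ht
  have h3 : 0 < t ^ (n + 1) := by positivity
  have h4 := mul_pos h3 (sub_pos.2 h2)
  nlinarith

/-- The derivative of `F G`. -/
theorem FG_deriv {n : ℕ} {t : ℝ} (ht : 0 < t) :
    HasDerivAt (fun s => II n (-(1 / 2)) s * II n (1 / 2) s)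
      ((JJ n (1 / 2) t 1 * II n (-(1 / 2)) t - II n (1 / 2) t * JJ n (-(1 / 2)) t 1) / 2) t := by
  have h1 := II_deriv (n := n) ht (a := -(1 / 2)) (by norm_num) (by norm_num)
  have h2 := II_deriv (n := n) ht (a := 1 / 2) (by norm_num) (by norm_num)
  refine (h1.mul h2).congr_deriv ?_
  ring

theorem FG_anti {n : ℕ} (hn : 1 ≤ n) :
    StrictAntiOn (fun s => II n (-(1 / 2)) s * II n (1 / 2) s) (Ici 0) := by
  refine strictAntiOn_of_deriv_neg (convex_Ici 0) ((II_neg_cont n).mul (II_pos_cont n))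
    fun t ht => ?_
  rw [interior_Ici] at ht
  have ht' : 0 < t := ht
  rw [(FG_deriv ht').deriv]
  have := H_neg hn ht'
  linarith

end Pool.Agent.Y296.FF
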